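import Pool.Agent.VB.E
import Pool.Agent.VB.F

/-!
# Nested tame intervals
-/

set_option autoImplicit false
set_option linter.unusedSectionVars false
set_option linter.unusedVariables false

namespace Pool.Agent.Helper97.LO

open Set Pool.Agent.Helper5.DU Pool.Agent.Helper6.Str Pool.Agent.Helper79.VC
  Pool.Agent.Helper97.VC Pool.Agent.Helper97.MD

variable {L : FirstOrder.Language.{0, 0}} {M N P : Type}

section

variable [∀ n, IsEmpty (L.Functions n)] [∀ n, Countable (L.Relations n)]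
  {K : Set (L.Structure ℕ)} {δ : Ordinal.{0}} {S : L.Structure M}

/-- **Nested tame intervals.** -/
theorem nb [Preorder M] {r : L.Relations 2} {o : Bool} (hL : Ar2 L) (hS : VSt K δ S)
    (hO : OSt r o S) (x : M) : TameX S {y | x ≤ y ∧ TameX S (Icc x y)} := by
  rcases NBA.cases hL hS hO x with h | ⟨h1, h2, h3⟩
  · exact h
  · exfalso
    have hne : ∃ z, z ∈ NBA.DD S x := by
      obtain ⟨z, hz, -⟩ := h2 0 (Ordinal.omega_pos 1)
      exact ⟨z, hz⟩
    obtain ⟨z0, hz0⟩ := hne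
    have hini : ∀ y ∈ NBA.DD S x, ∀ y', x ≤ y' → y' ≤ y → y' ∈ NBA.DD S x :=
      fun y hy y' h4 h5 => NBA.DD_init hO hy h4 h5
    have hx : x ∈ NBA.DD S x := hini z0 hz0 x (le_refl x) hz0.1
    refine nb_unbounded hL hS hO (D := NBA.DD S x) hx (fun y hy => hy.1) hini h3
      (fun u hu v hv => NBA.DD_tame hO hu hv) h1 fun γ hγ => ?_
    obtain ⟨z, hz, h4⟩ := h2 (γ + 1) (add_one_lt_om1 hγ)
    exact ⟨z, hz, fun h5 => h4 ⟨γ, lt_add_one_self γ, h5⟩⟩

theorem nb_dual [Preorder M] {r : L.Relations 2} {o : Bool} (hL : Ar2 L) (hS : VSt K δ S)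
    (hO : OSt r o S) (x : M) : TameX S {y | y ≤ x ∧ TameX S (Icc y x)} := by
  have h := @nb L M _ _ K δ S (dualPre M) r (!o) hL hS hO.dual x
  have e1 : ∀ y : M, @Icc M (dualPre M) x y = Icc y x := by
    intro y
    ext z
    exact and_comm
  have e2 : {y | @LE.le M (dualPre M).toLE x y ∧ TameX S (@Icc M (dualPre M) x y)} =
      {y | y ≤ x ∧ TameX S (Icc y x)} := by
    ext y
    rw [mem_ofPred_eq, mem_ofPred_eq, e1]
    exact Iff.rfl
  rw [e2] at h
  exact h

end

end Pool.Agent.Helper97.LO
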